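import Mathlib

namespace Pool.Agent.Results.MP_b57ad3_co.Conn14

open Finset

/-- `p = (a, b)` is a diagonal of the `N`-gon with vertices `1, …, N` (written with `a < b`). -/
def IsDiag (N : ℕ) (p : ℕ × ℕ) : Prop :=
  1 ≤ p.1 ∧ p.1 + 1 < p.2 ∧ p.2 ≤ N ∧ ¬ (p.1 = 1 ∧ p.2 = N)

/-- The diagonals `p` and `q` cross (with `p` starting first). -/
def Cross (p q : ℕ × ℕ) : Prop := p.1 < q.1 ∧ q.1 < p.2 ∧ p.2 < q.2

/-- A triangulation: a maximal set of pairwise non-crossing diagonals. -/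
def IsTriangulation (N : ℕ) (T : Finset (ℕ × ℕ)) : Prop :=
  (∀ p ∈ T, IsDiag N p) ∧ (∀ p ∈ T, ∀ q ∈ T, ¬ Cross p q) ∧
    ∀ a ∈ Icc 1 N, ∀ b ∈ Icc 1 N, IsDiag N (a, b) → (a, b) ∉ T →
      ∃ q ∈ T, Cross (a, b) q ∨ Cross q (a, b)

/-- For `a < b`: the segment `ab` is a side of the polygon or a diagonal of `T`. -/
def Edge (N : ℕ) (T : Finset (ℕ × ℕ)) (a b : ℕ) : Prop :=
  b = a + 1 ∨ (a = 1 ∧ b = N) ∨ (a, b) ∈ T

/-- Every triangle of `T` has three different colours (residues mod 3). -/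
def Colorful (N : ℕ) (T : Finset (ℕ × ℕ)) : Prop :=
  ∀ a ∈ Icc 1 N, ∀ b ∈ Icc 1 N, a < b → Edge N T a b → ∀ c ∈ Icc 1 N, b < c → Edge N T b c →
    Edge N T a c → a % 3 ≠ b % 3 ∧ b % 3 ≠ c % 3 ∧ a % 3 ≠ c % 3

/-- `T'` arises from `T` by rotating the inner triangle of the hexagon `a < b < c < d < e < f`. -/
def TwistAt (N : ℕ) (T T' : Finset (ℕ × ℕ)) (a b c d e f : ℕ) : Prop :=
  (1 ≤ a ∧ a < b ∧ b < c ∧ c < d ∧ d < e ∧ e < f ∧ f ≤ N) ∧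
  (Edge N T a b ∧ Edge N T b c ∧ Edge N T c d ∧ Edge N T d e ∧ Edge N T e f ∧ Edge N T a f) ∧
  (({(a, c), (c, e), (a, e)} ⊆ T ∧
      T' = (T \ {(a, c), (c, e), (a, e)}) ∪ {(b, d), (d, f), (b, f)}) ∨
    ({(b, d), (d, f), (b, f)} ⊆ T ∧
      T' = (T \ {(b, d), (d, f), (b, f)}) ∪ {(a, c), (c, e), (a, e)}))

/-- The twist graph on colourful triangulations. -/
def H (N : ℕ) : SimpleGraph {T : Finset (ℕ × ℕ) // IsTriangulation N T ∧ Colorful N T} :=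
  SimpleGraph.fromRel fun T T' => ∃ a b c d e f, TwistAt N T.1 T'.1 a b c d e f

instance (N p) : Decidable (IsDiag N p) := by unfold IsDiag; infer_instance
instance (p q) : Decidable (Cross p q) := by unfold Cross; infer_instance
instance (N T) : Decidable (IsTriangulation N T) := by unfold IsTriangulation; infer_instance
instance (N T a b) : Decidable (Edge N T a b) := by unfold Edge; infer_instance
instance (N T) : Decidable (Colorful N T) := by unfold Colorful; infer_instance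
instance (N T T' a b c d e f) : Decidable (TwistAt N T T' a b c d e f) := by
  unfold TwistAt; infer_instance

def enum : ℕ → ℕ → ℕ → List (List (ℕ × ℕ))
  | 0, _, _ => []
  | n + 1, a, b => if b = a + 1 then [[]] else
      (List.range' (a + 1) (b - a - 1)).flatMap fun k =>
        if a % 3 ≠ k % 3 ∧ k % 3 ≠ b % 3 ∧ a % 3 ≠ b % 3 then
          (enum n a k).flatMap fun x => (enum n k b).map fun y =>
            (if k = a + 1 then [] else [(a, k)]) ++ (if b = k + 1 then [] else [(k, b)]) ++ x ++ y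
        else []

lemma apex {N : ℕ} {T : Finset (ℕ × ℕ)} (hT : IsTriangulation N T) {a b : ℕ} (ha : 1 ≤ a)
    (hb : b ≤ N) (hab : a + 1 < b) (he : Edge N T a b) :
    ∃ k, a < k ∧ k < b ∧ Edge N T a k ∧ Edge N T k b := by
  classical
  obtain ⟨h1, h2, h3⟩ := hT
  let s := (Ioo a b).filter fun k => Edge N T a k
  have hs : s.Nonempty := ⟨a + 1, by simp [s, Edge, hab]⟩
  obtain ⟨k, hk, hmax⟩ := s.exists_max_image id hs
  simp only [s, mem_filter, mem_Ioo, id] at hk hmax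
  refine ⟨k, hk.1.1, hk.1.2, hk.2, ?_⟩
  by_contra hne
  simp only [Edge, not_or] at hne
  obtain ⟨⟨c, d⟩, hq, hc⟩ := h3 k (by simp; omega) b (by simp; omega)
    ⟨by simp; omega, by simp; omega, hb, by simp; omega⟩ hne.2.2
  have hd := h1 _ hq
  simp only [IsDiag] at hd
  have x1 : ¬ Cross (a, b) (c, d) ∧ ¬ Cross (c, d) (a, b) := by
    rcases he with he | he | he
    · omega
    · simp only [Cross]; omega
    · exact ⟨h2 _ he _ hq, h2 _ hq _ he⟩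
  have x2 : ¬ Cross (a, k) (c, d) := by
    rcases hk.2 with he | he | he
    · simp only [Cross]; omega
    · omega
    · exact h2 _ he _ hq
  simp only [Cross] at x1 x2 hc
  have x3 : c = a → d < b → d ≤ k := fun e e' =>
    hmax d ⟨⟨by omega, e'⟩, Or.inr (Or.inr (e ▸ hq))⟩
  omega

lemma complete {N : ℕ} {T : Finset (ℕ × ℕ)} (hT : IsTriangulation N T) (hC : Colorful N T) :
    ∀ n a b, b - a ≤ n → 1 ≤ a → a < b → b ≤ N → Edge N T a b →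
      ∃ l ∈ enum n a b, ∀ p, p ∈ l ↔ p ∈ T ∧ a ≤ p.1 ∧ p.2 ≤ b ∧ p ≠ (a, b) := by
  intro n
  induction n with
  | zero => intro a b h _ h'; omega
  | succ n ih =>
    intro a b hn ha hab hb he
    by_cases e : b = a + 1
    · refine ⟨[], by simp [enum, e], fun p => ?_⟩
      simp only [List.not_mem_nil, false_iff, not_and]
      intro hp h1 h2
      have := hT.1 p hp
      simp only [IsDiag] at this
      omega
    obtain ⟨k, hak, hkb, e1, e2⟩ := apex hT ha hb (by omega) he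
    obtain ⟨x, hx, hx'⟩ := ih a k (by omega) ha hak (by omega) e1
    obtain ⟨y, hy, hy'⟩ := ih k b (by omega) (by omega) hkb hb e2
    have hc := hC a (by simp; omega) k (by simp; omega) hak e1 b (by simp; omega) hkb e2 he
    refine ⟨(if k = a + 1 then [] else [(a, k)]) ++ (if b = k + 1 then [] else [(k, b)]) ++ x ++ y,
      ?_, ?_⟩
    · simp only [enum, e, if_false, List.mem_flatMap]
      refine ⟨k, List.mem_range'_1.2 ⟨by omega, by omega⟩, ?_⟩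
      rw [if_pos hc]
      simp only [List.mem_flatMap, List.mem_map]
      exact ⟨x, hx, y, hy, rfl⟩
    · rintro ⟨c, d⟩
      have m1 : k ≠ a + 1 → (a, k) ∈ T := fun h => by
        rcases e1 with e1 | e1 | e1
        · omega
        · omega
        · exact e1
      have m2 : b ≠ k + 1 → (k, b) ∈ T := fun h => by
        rcases e2 with e2 | e2 | e2
        · omega
        · omega
        · exact e2
      simp only [List.mem_append, hx', hy', ne_eq, Prod.mk.injEq]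
      constructor
      · rintro (((h | h) | h) | h)
        · split_ifs at h with hh
          · simp at h
          · simp only [List.mem_singleton, Prod.mk.injEq] at h
            obtain ⟨rfl, rfl⟩ := h
            exact ⟨m1 hh, by omega⟩
        · split_ifs at h with hh
          · simp at h
          · simp only [List.mem_singleton, Prod.mk.injEq] at h
            obtain ⟨rfl, rfl⟩ := h
            exact ⟨m2 hh, by omega⟩
        · exact ⟨h.1, by omega⟩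
        · exact ⟨h.1, by omega⟩
      · rintro ⟨hp, h1, h2, h3⟩
        have hd := hT.1 _ hp
        simp only [IsDiag] at hd
        have c1 : k ≠ a + 1 → ¬ Cross (a, k) (c, d) := fun h => hT.2.1 _ (m1 h) _ hp
        have c2 : b ≠ k + 1 → ¬ Cross (c, d) (k, b) := fun h => hT.2.1 _ hp _ (m2 h)
        simp only [Cross] at c1 c2
        by_cases q1 : c = a ∧ d = k
        · left; left; left
          rw [if_neg (by omega)]; simp [q1]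
        by_cases q2 : c = k ∧ d = b
        · left; left; right
          rw [if_neg (by omega)]; simp [q2]
        by_cases q3 : d ≤ k
        · left; right; exact ⟨hp, by omega⟩
        · right; exact ⟨hp, by omega⟩

def D : List (List (ℕ × ℕ)) := [[(1, 3), (3, 14), (4, 14), (4, 6), (6, 14), (7, 14), (7, 9), (9, 14), (10, 14), (10, 12), (12, 14)],
  [(1, 3), (3, 14), (4, 14), (4, 6), (6, 14), (7, 14), (7, 9), (9, 14), (9, 13), (9, 11), (11, 13)],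
  [(1, 3), (3, 14), (4, 14), (4, 6), (6, 14), (7, 14), (7, 12), (12, 14), (8, 12), (8, 10), (10, 12)],
  [(1, 3), (3, 14), (4, 14), (4, 6), (6, 14), (7, 14), (7, 12), (12, 14), (7, 11), (7, 9), (9, 11)],
  [(1, 3), (3, 14), (4, 14), (4, 6), (6, 14), (6, 10), (10, 14), (6, 8), (8, 10), (10, 12), (12, 14)],
  [(1, 3), (3, 14), (4, 14), (4, 6), (6, 14), (6, 13), (6, 8), (8, 13), (9, 13), (9, 11), (11, 13)],
  [(1, 3), (3, 14), (4, 14), (4, 6), (6, 14), (6, 13), (6, 8), (8, 13), (8, 12), (8, 10), (10, 12)],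
  [(1, 3), (3, 14), (4, 14), (4, 6), (6, 14), (6, 13), (6, 11), (11, 13), (7, 11), (7, 9), (9, 11)],
  [(1, 3), (3, 14), (4, 14), (4, 6), (6, 14), (6, 13), (6, 11), (11, 13), (6, 10), (6, 8), (8, 10)],
  [(1, 3), (3, 14), (4, 14), (4, 9), (9, 14), (5, 9), (5, 7), (7, 9), (10, 14), (10, 12), (12, 14)],
  [(1, 3), (3, 14), (4, 14), (4, 9), (9, 14), (5, 9), (5, 7), (7, 9), (9, 13), (9, 11), (11, 13)],
  [(1, 3), (3, 14), (4, 14), (4, 9), (9, 14), (4, 8), (4, 6), (6, 8), (10, 14), (10, 12), (12, 14)],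
  [(1, 3), (3, 14), (4, 14), (4, 9), (9, 14), (4, 8), (4, 6), (6, 8), (9, 13), (9, 11), (11, 13)],
  [(1, 3), (3, 14), (4, 14), (4, 12), (12, 14), (5, 12), (5, 7), (7, 12), (8, 12), (8, 10), (10, 12)],
  [(1, 3), (3, 14), (4, 14), (4, 12), (12, 14), (5, 12), (5, 7), (7, 12), (7, 11), (7, 9), (9, 11)],
  [(1, 3), (3, 14), (4, 14), (4, 12), (12, 14), (5, 12), (5, 10), (10, 12), (6, 10), (6, 8), (8, 10)],
  [(1, 3), (3, 14), (4, 14), (4, 12), (12, 14), (5, 12), (5, 10), (10, 12), (5, 9), (5, 7), (7, 9)],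
  [(1, 3), (3, 14), (4, 14), (4, 12), (12, 14), (4, 8), (8, 12), (4, 6), (6, 8), (8, 10), (10, 12)],
  [(1, 3), (3, 14), (4, 14), (4, 12), (12, 14), (4, 11), (4, 6), (6, 11), (7, 11), (7, 9), (9, 11)],
  [(1, 3), (3, 14), (4, 14), (4, 12), (12, 14), (4, 11), (4, 6), (6, 11), (6, 10), (6, 8), (8, 10)],
  [(1, 3), (3, 14), (4, 14), (4, 12), (12, 14), (4, 11), (4, 9), (9, 11), (5, 9), (5, 7), (7, 9)],
  [(1, 3), (3, 14), (4, 14), (4, 12), (12, 14), (4, 11), (4, 9), (9, 11), (4, 8), (4, 6), (6, 8)],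
  [(1, 3), (3, 14), (3, 7), (7, 14), (3, 5), (5, 7), (7, 9), (9, 14), (10, 14), (10, 12), (12, 14)],
  [(1, 3), (3, 14), (3, 7), (7, 14), (3, 5), (5, 7), (7, 9), (9, 14), (9, 13), (9, 11), (11, 13)],
  [(1, 3), (3, 14), (3, 7), (7, 14), (3, 5), (5, 7), (7, 12), (12, 14), (8, 12), (8, 10), (10, 12)],
  [(1, 3), (3, 14), (3, 7), (7, 14), (3, 5), (5, 7), (7, 12), (12, 14), (7, 11), (7, 9), (9, 11)],
  [(1, 3), (3, 14), (3, 10), (10, 14), (3, 5), (5, 10), (6, 10), (6, 8), (8, 10), (10, 12), (12, 14)],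
  [(1, 3), (3, 14), (3, 10), (10, 14), (3, 5), (5, 10), (5, 9), (5, 7), (7, 9), (10, 12), (12, 14)],
  [(1, 3), (3, 14), (3, 10), (10, 14), (3, 8), (8, 10), (4, 8), (4, 6), (6, 8), (10, 12), (12, 14)],
  [(1, 3), (3, 14), (3, 10), (10, 14), (3, 8), (8, 10), (3, 7), (3, 5), (5, 7), (10, 12), (12, 14)],
  [(1, 3), (3, 14), (3, 13), (3, 5), (5, 13), (6, 13), (6, 8), (8, 13), (9, 13), (9, 11), (11, 13)],
  [(1, 3), (3, 14), (3, 13), (3, 5), (5, 13), (6, 13), (6, 8), (8, 13), (8, 12), (8, 10), (10, 12)],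
  [(1, 3), (3, 14), (3, 13), (3, 5), (5, 13), (6, 13), (6, 11), (11, 13), (7, 11), (7, 9), (9, 11)],
  [(1, 3), (3, 14), (3, 13), (3, 5), (5, 13), (6, 13), (6, 11), (11, 13), (6, 10), (6, 8), (8, 10)],
  [(1, 3), (3, 14), (3, 13), (3, 5), (5, 13), (5, 9), (9, 13), (5, 7), (7, 9), (9, 11), (11, 13)],
  [(1, 3), (3, 14), (3, 13), (3, 5), (5, 13), (5, 12), (5, 7), (7, 12), (8, 12), (8, 10), (10, 12)],
  [(1, 3), (3, 14), (3, 13), (3, 5), (5, 13), (5, 12), (5, 7), (7, 12), (7, 11), (7, 9), (9, 11)],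
  [(1, 3), (3, 14), (3, 13), (3, 5), (5, 13), (5, 12), (5, 10), (10, 12), (6, 10), (6, 8), (8, 10)],
  [(1, 3), (3, 14), (3, 13), (3, 5), (5, 13), (5, 12), (5, 10), (10, 12), (5, 9), (5, 7), (7, 9)],
  [(1, 3), (3, 14), (3, 13), (3, 8), (8, 13), (4, 8), (4, 6), (6, 8), (9, 13), (9, 11), (11, 13)],
  [(1, 3), (3, 14), (3, 13), (3, 8), (8, 13), (4, 8), (4, 6), (6, 8), (8, 12), (8, 10), (10, 12)],
  [(1, 3), (3, 14), (3, 13), (3, 8), (8, 13), (3, 7), (3, 5), (5, 7), (9, 13), (9, 11), (11, 13)],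
  [(1, 3), (3, 14), (3, 13), (3, 8), (8, 13), (3, 7), (3, 5), (5, 7), (8, 12), (8, 10), (10, 12)],
  [(1, 3), (3, 14), (3, 13), (3, 11), (11, 13), (4, 11), (4, 6), (6, 11), (7, 11), (7, 9), (9, 11)],
  [(1, 3), (3, 14), (3, 13), (3, 11), (11, 13), (4, 11), (4, 6), (6, 11), (6, 10), (6, 8), (8, 10)],
  [(1, 3), (3, 14), (3, 13), (3, 11), (11, 13), (4, 11), (4, 9), (9, 11), (5, 9), (5, 7), (7, 9)],
  [(1, 3), (3, 14), (3, 13), (3, 11), (11, 13), (4, 11), (4, 9), (9, 11), (4, 8), (4, 6), (6, 8)],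
  [(1, 3), (3, 14), (3, 13), (3, 11), (11, 13), (3, 7), (7, 11), (3, 5), (5, 7), (7, 9), (9, 11)],
  [(1, 3), (3, 14), (3, 13), (3, 11), (11, 13), (3, 10), (3, 5), (5, 10), (6, 10), (6, 8), (8, 10)],
  [(1, 3), (3, 14), (3, 13), (3, 11), (11, 13), (3, 10), (3, 5), (5, 10), (5, 9), (5, 7), (7, 9)],
  [(1, 3), (3, 14), (3, 13), (3, 11), (11, 13), (3, 10), (3, 8), (8, 10), (4, 8), (4, 6), (6, 8)],
  [(1, 3), (3, 14), (3, 13), (3, 11), (11, 13), (3, 10), (3, 8), (8, 10), (3, 7), (3, 5), (5, 7)],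
  [(1, 6), (6, 14), (2, 6), (2, 4), (4, 6), (7, 14), (7, 9), (9, 14), (10, 14), (10, 12), (12, 14)],
  [(1, 6), (6, 14), (2, 6), (2, 4), (4, 6), (7, 14), (7, 9), (9, 14), (9, 13), (9, 11), (11, 13)],
  [(1, 6), (6, 14), (2, 6), (2, 4), (4, 6), (7, 14), (7, 12), (12, 14), (8, 12), (8, 10), (10, 12)],
  [(1, 6), (6, 14), (2, 6), (2, 4), (4, 6), (7, 14), (7, 12), (12, 14), (7, 11), (7, 9), (9, 11)],
  [(1, 6), (6, 14), (2, 6), (2, 4), (4, 6), (6, 10), (10, 14), (6, 8), (8, 10), (10, 12), (12, 14)],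
  [(1, 6), (6, 14), (2, 6), (2, 4), (4, 6), (6, 13), (6, 8), (8, 13), (9, 13), (9, 11), (11, 13)],
  [(1, 6), (6, 14), (2, 6), (2, 4), (4, 6), (6, 13), (6, 8), (8, 13), (8, 12), (8, 10), (10, 12)],
  [(1, 6), (6, 14), (2, 6), (2, 4), (4, 6), (6, 13), (6, 11), (11, 13), (7, 11), (7, 9), (9, 11)],
  [(1, 6), (6, 14), (2, 6), (2, 4), (4, 6), (6, 13), (6, 11), (11, 13), (6, 10), (6, 8), (8, 10)],
  [(1, 6), (6, 14), (1, 5), (1, 3), (3, 5), (7, 14), (7, 9), (9, 14), (10, 14), (10, 12), (12, 14)],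
  [(1, 6), (6, 14), (1, 5), (1, 3), (3, 5), (7, 14), (7, 9), (9, 14), (9, 13), (9, 11), (11, 13)],
  [(1, 6), (6, 14), (1, 5), (1, 3), (3, 5), (7, 14), (7, 12), (12, 14), (8, 12), (8, 10), (10, 12)],
  [(1, 6), (6, 14), (1, 5), (1, 3), (3, 5), (7, 14), (7, 12), (12, 14), (7, 11), (7, 9), (9, 11)],
  [(1, 6), (6, 14), (1, 5), (1, 3), (3, 5), (6, 10), (10, 14), (6, 8), (8, 10), (10, 12), (12, 14)],
  [(1, 6), (6, 14), (1, 5), (1, 3), (3, 5), (6, 13), (6, 8), (8, 13), (9, 13), (9, 11), (11, 13)],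
  [(1, 6), (6, 14), (1, 5), (1, 3), (3, 5), (6, 13), (6, 8), (8, 13), (8, 12), (8, 10), (10, 12)],
  [(1, 6), (6, 14), (1, 5), (1, 3), (3, 5), (6, 13), (6, 11), (11, 13), (7, 11), (7, 9), (9, 11)],
  [(1, 6), (6, 14), (1, 5), (1, 3), (3, 5), (6, 13), (6, 11), (11, 13), (6, 10), (6, 8), (8, 10)],
  [(1, 9), (9, 14), (2, 9), (2, 4), (4, 9), (5, 9), (5, 7), (7, 9), (10, 14), (10, 12), (12, 14)],
  [(1, 9), (9, 14), (2, 9), (2, 4), (4, 9), (5, 9), (5, 7), (7, 9), (9, 13), (9, 11), (11, 13)],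
  [(1, 9), (9, 14), (2, 9), (2, 4), (4, 9), (4, 8), (4, 6), (6, 8), (10, 14), (10, 12), (12, 14)],
  [(1, 9), (9, 14), (2, 9), (2, 4), (4, 9), (4, 8), (4, 6), (6, 8), (9, 13), (9, 11), (11, 13)],
  [(1, 9), (9, 14), (2, 9), (2, 7), (7, 9), (3, 7), (3, 5), (5, 7), (10, 14), (10, 12), (12, 14)],
  [(1, 9), (9, 14), (2, 9), (2, 7), (7, 9), (3, 7), (3, 5), (5, 7), (9, 13), (9, 11), (11, 13)],
  [(1, 9), (9, 14), (2, 9), (2, 7), (7, 9), (2, 6), (2, 4), (4, 6), (10, 14), (10, 12), (12, 14)],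
  [(1, 9), (9, 14), (2, 9), (2, 7), (7, 9), (2, 6), (2, 4), (4, 6), (9, 13), (9, 11), (11, 13)],
  [(1, 9), (9, 14), (1, 5), (5, 9), (1, 3), (3, 5), (5, 7), (7, 9), (10, 14), (10, 12), (12, 14)],
  [(1, 9), (9, 14), (1, 5), (5, 9), (1, 3), (3, 5), (5, 7), (7, 9), (9, 13), (9, 11), (11, 13)],
  [(1, 9), (9, 14), (1, 8), (1, 3), (3, 8), (4, 8), (4, 6), (6, 8), (10, 14), (10, 12), (12, 14)],
  [(1, 9), (9, 14), (1, 8), (1, 3), (3, 8), (4, 8), (4, 6), (6, 8), (9, 13), (9, 11), (11, 13)],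
  [(1, 9), (9, 14), (1, 8), (1, 3), (3, 8), (3, 7), (3, 5), (5, 7), (10, 14), (10, 12), (12, 14)],
  [(1, 9), (9, 14), (1, 8), (1, 3), (3, 8), (3, 7), (3, 5), (5, 7), (9, 13), (9, 11), (11, 13)],
  [(1, 9), (9, 14), (1, 8), (1, 6), (6, 8), (2, 6), (2, 4), (4, 6), (10, 14), (10, 12), (12, 14)],
  [(1, 9), (9, 14), (1, 8), (1, 6), (6, 8), (2, 6), (2, 4), (4, 6), (9, 13), (9, 11), (11, 13)],
  [(1, 9), (9, 14), (1, 8), (1, 6), (6, 8), (1, 5), (1, 3), (3, 5), (10, 14), (10, 12), (12, 14)],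
  [(1, 9), (9, 14), (1, 8), (1, 6), (6, 8), (1, 5), (1, 3), (3, 5), (9, 13), (9, 11), (11, 13)],
  [(1, 12), (12, 14), (2, 12), (2, 4), (4, 12), (5, 12), (5, 7), (7, 12), (8, 12), (8, 10), (10, 12)],
  [(1, 12), (12, 14), (2, 12), (2, 4), (4, 12), (5, 12), (5, 7), (7, 12), (7, 11), (7, 9), (9, 11)],
  [(1, 12), (12, 14), (2, 12), (2, 4), (4, 12), (5, 12), (5, 10), (10, 12), (6, 10), (6, 8), (8, 10)],
  [(1, 12), (12, 14), (2, 12), (2, 4), (4, 12), (5, 12), (5, 10), (10, 12), (5, 9), (5, 7), (7, 9)],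
  [(1, 12), (12, 14), (2, 12), (2, 4), (4, 12), (4, 8), (8, 12), (4, 6), (6, 8), (8, 10), (10, 12)],
  [(1, 12), (12, 14), (2, 12), (2, 4), (4, 12), (4, 11), (4, 6), (6, 11), (7, 11), (7, 9), (9, 11)],
  [(1, 12), (12, 14), (2, 12), (2, 4), (4, 12), (4, 11), (4, 6), (6, 11), (6, 10), (6, 8), (8, 10)],
  [(1, 12), (12, 14), (2, 12), (2, 4), (4, 12), (4, 11), (4, 9), (9, 11), (5, 9), (5, 7), (7, 9)],
  [(1, 12), (12, 14), (2, 12), (2, 4), (4, 12), (4, 11), (4, 9), (9, 11), (4, 8), (4, 6), (6, 8)],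
  [(1, 12), (12, 14), (2, 12), (2, 7), (7, 12), (3, 7), (3, 5), (5, 7), (8, 12), (8, 10), (10, 12)],
  [(1, 12), (12, 14), (2, 12), (2, 7), (7, 12), (3, 7), (3, 5), (5, 7), (7, 11), (7, 9), (9, 11)],
  [(1, 12), (12, 14), (2, 12), (2, 7), (7, 12), (2, 6), (2, 4), (4, 6), (8, 12), (8, 10), (10, 12)],
  [(1, 12), (12, 14), (2, 12), (2, 7), (7, 12), (2, 6), (2, 4), (4, 6), (7, 11), (7, 9), (9, 11)],
  [(1, 12), (12, 14), (2, 12), (2, 10), (10, 12), (3, 10), (3, 5), (5, 10), (6, 10), (6, 8), (8, 10)],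
  [(1, 12), (12, 14), (2, 12), (2, 10), (10, 12), (3, 10), (3, 5), (5, 10), (5, 9), (5, 7), (7, 9)],
  [(1, 12), (12, 14), (2, 12), (2, 10), (10, 12), (3, 10), (3, 8), (8, 10), (4, 8), (4, 6), (6, 8)],
  [(1, 12), (12, 14), (2, 12), (2, 10), (10, 12), (3, 10), (3, 8), (8, 10), (3, 7), (3, 5), (5, 7)],
  [(1, 12), (12, 14), (2, 12), (2, 10), (10, 12), (2, 6), (6, 10), (2, 4), (4, 6), (6, 8), (8, 10)],
  [(1, 12), (12, 14), (2, 12), (2, 10), (10, 12), (2, 9), (2, 4), (4, 9), (5, 9), (5, 7), (7, 9)],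
  [(1, 12), (12, 14), (2, 12), (2, 10), (10, 12), (2, 9), (2, 4), (4, 9), (4, 8), (4, 6), (6, 8)],
  [(1, 12), (12, 14), (2, 12), (2, 10), (10, 12), (2, 9), (2, 7), (7, 9), (3, 7), (3, 5), (5, 7)],
  [(1, 12), (12, 14), (2, 12), (2, 10), (10, 12), (2, 9), (2, 7), (7, 9), (2, 6), (2, 4), (4, 6)],
  [(1, 12), (12, 14), (1, 5), (5, 12), (1, 3), (3, 5), (5, 7), (7, 12), (8, 12), (8, 10), (10, 12)],
  [(1, 12), (12, 14), (1, 5), (5, 12), (1, 3), (3, 5), (5, 7), (7, 12), (7, 11), (7, 9), (9, 11)],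
  [(1, 12), (12, 14), (1, 5), (5, 12), (1, 3), (3, 5), (5, 10), (10, 12), (6, 10), (6, 8), (8, 10)],
  [(1, 12), (12, 14), (1, 5), (5, 12), (1, 3), (3, 5), (5, 10), (10, 12), (5, 9), (5, 7), (7, 9)],
  [(1, 12), (12, 14), (1, 8), (8, 12), (1, 3), (3, 8), (4, 8), (4, 6), (6, 8), (8, 10), (10, 12)],
  [(1, 12), (12, 14), (1, 8), (8, 12), (1, 3), (3, 8), (3, 7), (3, 5), (5, 7), (8, 10), (10, 12)],
  [(1, 12), (12, 14), (1, 8), (8, 12), (1, 6), (6, 8), (2, 6), (2, 4), (4, 6), (8, 10), (10, 12)],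
  [(1, 12), (12, 14), (1, 8), (8, 12), (1, 6), (6, 8), (1, 5), (1, 3), (3, 5), (8, 10), (10, 12)],
  [(1, 12), (12, 14), (1, 11), (1, 3), (3, 11), (4, 11), (4, 6), (6, 11), (7, 11), (7, 9), (9, 11)],
  [(1, 12), (12, 14), (1, 11), (1, 3), (3, 11), (4, 11), (4, 6), (6, 11), (6, 10), (6, 8), (8, 10)],
  [(1, 12), (12, 14), (1, 11), (1, 3), (3, 11), (4, 11), (4, 9), (9, 11), (5, 9), (5, 7), (7, 9)],
  [(1, 12), (12, 14), (1, 11), (1, 3), (3, 11), (4, 11), (4, 9), (9, 11), (4, 8), (4, 6), (6, 8)],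
  [(1, 12), (12, 14), (1, 11), (1, 3), (3, 11), (3, 7), (7, 11), (3, 5), (5, 7), (7, 9), (9, 11)],
  [(1, 12), (12, 14), (1, 11), (1, 3), (3, 11), (3, 10), (3, 5), (5, 10), (6, 10), (6, 8), (8, 10)],
  [(1, 12), (12, 14), (1, 11), (1, 3), (3, 11), (3, 10), (3, 5), (5, 10), (5, 9), (5, 7), (7, 9)],
  [(1, 12), (12, 14), (1, 11), (1, 3), (3, 11), (3, 10), (3, 8), (8, 10), (4, 8), (4, 6), (6, 8)],
  [(1, 12), (12, 14), (1, 11), (1, 3), (3, 11), (3, 10), (3, 8), (8, 10), (3, 7), (3, 5), (5, 7)],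
  [(1, 12), (12, 14), (1, 11), (1, 6), (6, 11), (2, 6), (2, 4), (4, 6), (7, 11), (7, 9), (9, 11)],
  [(1, 12), (12, 14), (1, 11), (1, 6), (6, 11), (2, 6), (2, 4), (4, 6), (6, 10), (6, 8), (8, 10)],
  [(1, 12), (12, 14), (1, 11), (1, 6), (6, 11), (1, 5), (1, 3), (3, 5), (7, 11), (7, 9), (9, 11)],
  [(1, 12), (12, 14), (1, 11), (1, 6), (6, 11), (1, 5), (1, 3), (3, 5), (6, 10), (6, 8), (8, 10)],
  [(1, 12), (12, 14), (1, 11), (1, 9), (9, 11), (2, 9), (2, 4), (4, 9), (5, 9), (5, 7), (7, 9)],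
  [(1, 12), (12, 14), (1, 11), (1, 9), (9, 11), (2, 9), (2, 4), (4, 9), (4, 8), (4, 6), (6, 8)],
  [(1, 12), (12, 14), (1, 11), (1, 9), (9, 11), (2, 9), (2, 7), (7, 9), (3, 7), (3, 5), (5, 7)],
  [(1, 12), (12, 14), (1, 11), (1, 9), (9, 11), (2, 9), (2, 7), (7, 9), (2, 6), (2, 4), (4, 6)],
  [(1, 12), (12, 14), (1, 11), (1, 9), (9, 11), (1, 5), (5, 9), (1, 3), (3, 5), (5, 7), (7, 9)],
  [(1, 12), (12, 14), (1, 11), (1, 9), (9, 11), (1, 8), (1, 3), (3, 8), (4, 8), (4, 6), (6, 8)],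
  [(1, 12), (12, 14), (1, 11), (1, 9), (9, 11), (1, 8), (1, 3), (3, 8), (3, 7), (3, 5), (5, 7)],
  [(1, 12), (12, 14), (1, 11), (1, 9), (9, 11), (1, 8), (1, 6), (6, 8), (2, 6), (2, 4), (4, 6)],
  [(1, 12), (12, 14), (1, 11), (1, 9), (9, 11), (1, 8), (1, 6), (6, 8), (1, 5), (1, 3), (3, 5)]]
def W : List (ℕ × ℕ × List ℕ) := [(0, 0, [0, 0, 0, 0, 0, 0]),
  (1, 0, [9, 10, 11, 12, 13, 14]),
  (4, 6, [6, 7, 8, 12, 13, 14]),
  (4, 7, [6, 7, 11, 12, 13, 14]),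
  (1, 0, [6, 7, 8, 9, 10, 14]),
  (2, 1, [6, 7, 8, 9, 13, 14]),
  (3, 5, [8, 9, 10, 11, 12, 13]),
  (3, 8, [6, 7, 8, 9, 10, 11]),
  (2, 4, [6, 10, 11, 12, 13, 14]),
  (4, 27, [3, 4, 5, 9, 10, 14]),
  (5, 9, [9, 10, 11, 12, 13, 14]),
  (4, 28, [3, 4, 8, 9, 10, 14]),
  (5, 11, [9, 10, 11, 12, 13, 14]),
  (3, 17, [4, 5, 6, 7, 8, 12]),
  (4, 13, [7, 8, 9, 10, 11, 12]),
  (5, 37, [3, 4, 5, 12, 13, 14]),
  (5, 20, [4, 5, 9, 10, 11, 12]),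
  (2, 4, [4, 6, 8, 10, 12, 14]),
  (5, 14, [4, 5, 6, 7, 11, 12]),
  (5, 44, [3, 4, 11, 12, 13, 14]),
  (4, 21, [4, 5, 6, 7, 8, 9]),
  (3, 17, [4, 8, 9, 10, 11, 12]),
  (1, 0, [3, 4, 5, 6, 7, 14]),
  (2, 22, [9, 10, 11, 12, 13, 14]),
  (5, 42, [3, 7, 8, 12, 13, 14]),
  (5, 47, [3, 7, 11, 12, 13, 14]),
  (2, 4, [3, 4, 5, 6, 10, 14]),
  (3, 26, [5, 6, 7, 8, 9, 10]),
  (3, 29, [3, 4, 5, 6, 7, 8]),
  (2, 22, [3, 7, 8, 9, 10, 14]),
  (3, 5, [3, 4, 5, 6, 13, 14]),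
  (4, 30, [8, 9, 10, 11, 12, 13]),
  (4, 33, [6, 7, 8, 9, 10, 11]),
  (3, 8, [3, 4, 5, 6, 13, 14]),
  (4, 30, [5, 6, 7, 8, 9, 13]),
  (4, 13, [3, 4, 5, 12, 13, 14]),
  (5, 35, [7, 8, 9, 10, 11, 12]),
  (4, 33, [5, 6, 10, 11, 12, 13]),
  (5, 37, [5, 6, 7, 8, 9, 10]),
  (4, 41, [3, 4, 5, 6, 7, 8]),
  (3, 17, [3, 4, 8, 12, 13, 14]),
  (3, 23, [3, 7, 8, 9, 13, 14]),
  (4, 41, [8, 9, 10, 11, 12, 13]),
  (5, 47, [3, 4, 5, 6, 7, 11]),
  (4, 48, [3, 4, 5, 6, 10, 11]),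
  (5, 49, [3, 4, 5, 9, 10, 11]),
  (4, 21, [3, 4, 11, 12, 13, 14]),
  (4, 51, [3, 7, 8, 9, 10, 11]),
  (3, 26, [3, 10, 11, 12, 13, 14]),
  (4, 48, [5, 6, 7, 8, 9, 10]),
  (4, 28, [3, 10, 11, 12, 13, 14]),
  (3, 29, [3, 10, 11, 12, 13, 14]),
  (8, 56, [6, 7, 8, 9, 10, 14]),
  (9, 52, [9, 10, 11, 12, 13, 14]),
  (11, 55, [7, 8, 9, 10, 11, 12]),
  (10, 59, [6, 7, 11, 12, 13, 14]),
  (7, 116, [1, 6, 8, 10, 12, 14]),
  (10, 53, [6, 7, 8, 9, 13, 14]),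
  (11, 57, [8, 9, 10, 11, 12, 13]),
  (9, 60, [6, 7, 8, 9, 10, 11]),
  (8, 56, [6, 10, 11, 12, 13, 14]),
  (9, 65, [6, 7, 8, 9, 10, 14]),
  (10, 61, [9, 10, 11, 12, 13, 14]),
  (12, 64, [7, 8, 9, 10, 11, 12]),
  (11, 68, [6, 7, 11, 12, 13, 14]),
  (8, 117, [1, 6, 8, 10, 12, 14]),
  (11, 62, [6, 7, 8, 9, 13, 14]),
  (12, 66, [8, 9, 10, 11, 12, 13]),
  (10, 69, [6, 7, 8, 9, 10, 11]),
  (9, 65, [6, 10, 11, 12, 13, 14]),
  (3, 78, [1, 2, 3, 4, 5, 9]),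
  (4, 70, [9, 10, 11, 12, 13, 14]),
  (4, 70, [4, 5, 6, 7, 8, 9]),
  (5, 72, [9, 10, 11, 12, 13, 14]),
  (6, 76, [2, 3, 4, 5, 6, 7]),
  (7, 74, [9, 10, 11, 12, 13, 14]),
  (5, 84, [1, 2, 6, 7, 8, 9]),
  (6, 76, [9, 10, 11, 12, 13, 14]),
  (2, 22, [1, 3, 5, 7, 9, 14]),
  (3, 78, [9, 10, 11, 12, 13, 14]),
  (5, 72, [1, 2, 3, 4, 8, 9]),
  (6, 80, [9, 10, 11, 12, 13, 14]),
  (6, 80, [3, 4, 5, 6, 7, 8]),
  (7, 82, [9, 10, 11, 12, 13, 14]),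
  (4, 86, [1, 2, 3, 4, 5, 6]),
  (5, 84, [9, 10, 11, 12, 13, 14]),
  (3, 78, [1, 5, 6, 7, 8, 9]),
  (4, 86, [9, 10, 11, 12, 13, 14]),
  (6, 92, [4, 5, 6, 7, 8, 12]),
  (7, 88, [7, 8, 9, 10, 11, 12]),
  (4, 112, [1, 2, 3, 4, 5, 12]),
  (5, 90, [5, 6, 7, 8, 9, 10]),
  (5, 114, [1, 2, 3, 4, 8, 12]),
  (6, 94, [6, 7, 8, 9, 10, 11]),
  (5, 90, [4, 5, 6, 10, 11, 12]),
  (6, 91, [4, 5, 9, 10, 11, 12]),
  (6, 92, [4, 8, 9, 10, 11, 12]),
  (4, 115, [1, 2, 3, 7, 8, 12]),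
  (5, 97, [7, 8, 9, 10, 11, 12]),
  (5, 97, [2, 3, 4, 5, 6, 7]),
  (6, 99, [7, 8, 9, 10, 11, 12]),
  (7, 105, [2, 3, 4, 5, 6, 10]),
  (8, 101, [5, 6, 7, 8, 9, 10]),
  (8, 104, [3, 4, 5, 6, 7, 8]),
  (7, 108, [2, 3, 7, 8, 9, 10]),
  (6, 92, [2, 4, 6, 8, 10, 12]),
  (7, 131, [1, 2, 9, 10, 11, 12]),
  (7, 132, [1, 2, 9, 10, 11, 12]),
  (6, 133, [1, 2, 9, 10, 11, 12]),
  (7, 108, [2, 3, 4, 5, 6, 7]),
  (6, 24, [1, 3, 5, 7, 12, 14]),
  (6, 25, [1, 3, 5, 7, 12, 14]),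
  (3, 26, [1, 3, 5, 10, 12, 14]),
  (4, 112, [5, 6, 7, 8, 9, 10]),
  (4, 115, [3, 4, 5, 6, 7, 8]),
  (3, 29, [1, 3, 8, 10, 12, 14]),
  (6, 99, [1, 2, 6, 7, 8, 12]),
  (7, 116, [1, 2, 3, 4, 5, 6]),
  (7, 122, [3, 4, 5, 6, 7, 11]),
  (6, 94, [1, 2, 3, 4, 11, 12]),
  (7, 95, [1, 2, 3, 4, 11, 12]),
  (7, 96, [1, 2, 3, 4, 11, 12]),
  (6, 98, [1, 2, 3, 7, 11, 12]),
  (7, 119, [3, 4, 5, 6, 10, 11]),
  (8, 123, [5, 6, 7, 8, 9, 10]),
  (8, 126, [3, 4, 5, 6, 7, 8]),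
  (7, 122, [3, 7, 8, 9, 10, 11]),
  (6, 128, [6, 7, 8, 9, 10, 11]),
  (5, 130, [1, 2, 3, 4, 5, 6]),
  (5, 130, [6, 7, 8, 9, 10, 11]),
  (4, 112, [1, 5, 6, 10, 11, 12]),
  (6, 135, [1, 2, 3, 4, 5, 9]),
  (6, 136, [1, 2, 3, 4, 8, 9]),
  (5, 137, [1, 2, 3, 7, 8, 9]),
  (6, 133, [2, 3, 4, 5, 6, 7]),
  (5, 113, [1, 5, 9, 10, 11, 12]),
  (5, 137, [3, 4, 5, 6, 7, 8]),
  (4, 115, [1, 8, 9, 10, 11, 12]),
  (7, 116, [1, 8, 9, 10, 11, 12]),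
  (6, 135, [1, 5, 6, 7, 8, 9])]

lemma enum_eq : enum 14 1 14 = D := by decide +kernel

def F (i : ℕ) : Finset (ℕ × ℕ) := (D.getD i []).toFinset
def rk (i : ℕ) : ℕ := (W.getD i (0, 0, [])).1
def par (i : ℕ) : ℕ := (W.getD i (0, 0, [])).2.1
def hx (i j : ℕ) : ℕ := (W.getD i (0, 0, [])).2.2.getD j 0

lemma good : ∀ i < 140, IsTriangulation 14 (F i) ∧ Colorful 14 (F i) := by decide +kernel

lemma step : ∀ i < 140, i ≠ 0 → par i < 140 ∧ rk (par i) < rk i ∧ F (par i) ≠ F i ∧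
    TwistAt 14 (F (par i)) (F i) (hx i 0) (hx i 1) (hx i 2) (hx i 3) (hx i 4) (hx i 5) := by
  decide +kernel

lemma reach : ∀ r i (h : i < 140), rk i = r →
    (H 14).Reachable ⟨F 0, good 0 (by norm_num)⟩ ⟨F i, good i h⟩ := by
  intro r
  induction r using Nat.strong_induction_on with
  | _ r ih =>
    intro i h hr
    by_cases e : i = 0
    · subst e; rfl
    obtain ⟨s1, s2, s3, s4⟩ := step i h e
    refine (ih _ (hr ▸ s2) (par i) s1 rfl).trans (SimpleGraph.Adj.reachable ?_)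
    simp only [H, SimpleGraph.fromRel_adj, ne_eq, Subtype.mk.injEq]
    exact ⟨s3, Or.inl ⟨_, _, _, _, _, _, s4⟩⟩

theorem result : ∃ N : ℕ, 8 ≤ N ∧ N % 3 = 2 ∧ (H N).Connected := by
  refine ⟨14, by norm_num, by norm_num, ?_⟩
  have key : ∀ v, (H 14).Reachable ⟨F 0, good 0 (by norm_num)⟩ v := by
    rintro ⟨T, hT, hC⟩
    obtain ⟨l, hl, hl'⟩ := complete hT hC 14 1 14 (by norm_num) le_rfl (by norm_num) le_rfl
      (Or.inr (Or.inl ⟨rfl, rfl⟩))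
    rw [enum_eq] at hl
    obtain ⟨i, hi, rfl⟩ := List.getElem_of_mem hl
    have hi' : i < 140 := hi
    have : T = F i := by
      ext p
      simp only [F, List.mem_toFinset, List.getD_eq_getElem _ _ hi, hl']
      refine ⟨fun hp => ?_, fun h => h.1⟩
      have := hT.1 p hp
      simp only [IsDiag] at this
      refine ⟨hp, this.1, this.2.2.1, ?_⟩
      rintro rfl
      exact this.2.2.2 ⟨rfl, rfl⟩
    subst this
    exact reach _ i hi' rfl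
  have : Nonempty {T : Finset (ℕ × ℕ) // IsTriangulation 14 T ∧ Colorful 14 T} :=
    ⟨⟨F 0, good 0 (by norm_num)⟩⟩
  exact ⟨fun u v => (key u).symm.trans (key v)⟩

end Pool.Agent.Results.MP_b57ad3_co.Conn14
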